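import Mathlib
import Pool.Agent.H25.MeagerInd

set_option autoImplicit false

namespace Pool.Agent.Results.MP_fb02e9_lc.Equal

open Cardinal

/-- Independent families of subsets of `ω`, as subsets of the Cantor space. -/
def Independent (A : Set (ℕ → Bool)) : Prop :=
  ∀ F G : Finset (ℕ → Bool), ↑F ⊆ A → ↑G ⊆ A → Disjoint F G →
    {n | (∀ a ∈ F, a n = true) ∧ ∀ b ∈ G, b n = false}.Infinite

/-- The least size of a non-meager subset of the Cantor space. -/
noncomputable def nonMeager : Cardinal.{0} :=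
  sInf {κ | ∃ X : Set (ℕ → Bool), ¬ IsMeagre X ∧ #X = κ}

theorem result :
    IsLeast {κ | ∃ A : Set (ℕ → Bool), Independent A ∧ ¬ IsMeagre A ∧ #A = κ} nonMeager := by
  have h0 : ∀ A : Set (ℕ → Bool), ¬ IsMeagre A → nonMeager ≤ #A :=
    fun A hA => csInf_le' ⟨A, hA, rfl⟩
  have h1 : {κ | ∃ X : Set (ℕ → Bool), ¬ IsMeagre X ∧ #X = κ}.Nonempty := by
    refine ⟨_, Set.univ, fun h => ?_, rfl⟩
    obtain ⟨x, hx⟩ := (dense_of_mem_residual h).nonempty
    exact hx trivial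
  obtain ⟨X, h2, h3⟩ := csInf_mem h1
  obtain ⟨A, g1, g2, g3⟩ := Pool.Agent.H25.MeagerInd.main h2
  refine ⟨⟨A, g1, g2, le_antisymm (g3.trans h3.le) (h0 A g2)⟩, ?_⟩
  rintro _ ⟨B, -, hB, rfl⟩
  exact h0 B hB

end Pool.Agent.Results.MP_fb02e9_lc.Equal
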